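import Pool.Agent.Helper92.BO.GoalsC

/-!
# Packet BO-MDG
-/

namespace Pool.Agent.Helper42.BO

open Finset Pool.Agent.Helper92.BO

/-- Functions of degree at most `j`. -/
def DegF (j : ℕ) (f : Finset ℕ → ℝ) : Prop :=
  ∃ a : Finset ℕ → ℝ, (∀ I, j < I.card → a I = 0) ∧ ∀ T, f T = ∑ I ∈ T.powerset, a I

theorem mob_inv (S : Finset ℕ) : ∀ a : Finset ℕ → ℝ,
    ∑ T ∈ S.powerset, (-1 : ℝ) ^ (S.card - T.card) * ∑ I ∈ T.powerset, a I = a S := by
  induction S using Finset.induction_on with
  | empty => intro a; simp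
  | insert x S hx ih =>
    intro a
    rw [sum_powerset_insert hx, ← sum_add_distrib, ← ih (fun I => a (insert x I))]
    apply sum_congr rfl
    intro T hT
    rw [mem_powerset] at hT
    have hxT : x ∉ T := fun h => hx (hT h)
    have hc := card_le_card hT
    rw [sum_powerset_insert hxT, card_insert_of_notMem hx, card_insert_of_notMem hxT,
      Nat.succ_sub hc, Nat.add_sub_add_right, pow_succ]
    ring

theorem degF_add {j : ℕ} {f g : Finset ℕ → ℝ} (hf : DegF j f) (hg : DegF j g) :
    DegF j (fun T => f T + g T) := by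
  obtain ⟨a, ha, hfa⟩ := hf
  obtain ⟨b, hb, hgb⟩ := hg
  refine ⟨fun I => a I + b I, fun I hI => by simp [ha I hI, hb I hI], fun T => ?_⟩
  simp only [hfa T, hgb T, sum_add_distrib]

theorem degF_smul {j : ℕ} {f : Finset ℕ → ℝ} (r : ℝ) (hf : DegF j f) :
    DegF j (fun T => r * f T) := by
  obtain ⟨a, ha, hfa⟩ := hf
  refine ⟨fun I => r * a I, fun I hI => by simp [ha I hI], fun T => ?_⟩
  simp only [hfa T, mul_sum]

theorem degF_sum {j n : ℕ} {f : ℕ → Finset ℕ → ℝ} (h : ∀ i < n, DegF j (f i)) :
    DegF j (fun T => ∑ i ∈ range n, f i T) := by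
  induction n with
  | zero => exact ⟨fun _ => 0, fun _ _ => rfl, fun T => by simp⟩
  | succ n ih =>
    simp only [sum_range_succ]
    exact degF_add (ih fun i hi => h i (by omega)) (h n (by omega))

theorem degF_mul {i k : ℕ} {f g : Finset ℕ → ℝ} (hf : DegF i f) (hg : DegF k g) :
    DegF (i + k) (fun T => f T * g T) := by
  obtain ⟨a, ha, hfa⟩ := hf
  obtain ⟨b, hb, hgb⟩ := hg
  refine ⟨fun K => ∑ q ∈ (K.powerset ×ˢ K.powerset).filter (fun q => q.1 ∪ q.2 = K),
    a q.1 * b q.2, fun K hK => ?_, fun T => ?_⟩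
  · apply sum_eq_zero
    intro q hq
    rw [mem_filter] at hq
    have h1 : K.card ≤ q.1.card + q.2.card := by
      rw [← hq.2]
      exact card_union_le _ _
    by_cases h2 : i < q.1.card
    · rw [ha _ h2, zero_mul]
    · rw [hb _ (by omega), mul_zero]
  · show f T * g T = _
    rw [hfa T, hgb T, sum_mul_sum, ← sum_product',
      ← sum_fiberwise_of_maps_to (t := T.powerset) (g := fun q => q.1 ∪ q.2)]
    · apply sum_congr rfl
      intro K hK
      rw [mem_powerset] at hK
      apply sum_congr _ (fun _ _ => rfl)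
      ext q
      simp only [mem_filter, mem_product, mem_powerset]
      constructor
      · rintro ⟨_, h⟩
        exact ⟨⟨h ▸ subset_union_left, h ▸ subset_union_right⟩, h⟩
      · rintro ⟨⟨h1, h2⟩, h⟩
        exact ⟨⟨h1.trans hK, h2.trans hK⟩, h⟩
    · intro q hq
      simp only [mem_product, mem_powerset] at hq
      exact mem_powerset.2 (union_subset hq.1 hq.2)

theorem degF_yc (p : Finset ℕ → ℝ) (i : ℕ) : DegF i (fun T => yc p T i) := by
  refine ⟨fun I => if I.card = i then p I else 0, fun I hI => if_neg (by omega), fun T => ?_⟩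
  show yc p T i = _
  unfold yc
  rw [powersetCard_eq_filter, sum_filter]

/-- Packet BO-MDG. -/
theorem mdg : MdgStmt := by
  intro p s hp hs
  have h0 : ∀ T, yc p T 0 = 1 := by
    intro T
    unfold yc
    rw [powersetCard_zero, sum_singleton, hp]
  have key : ∀ j, DegF j (fun T => s T j) := by
    intro j
    induction j using Nat.strong_induction_on with
    | _ j ih =>
      have e : (fun T => s T j) = fun T => (j : ℝ) * yc p T j +
          (-1) * ∑ i ∈ range j, yc p T (i + 1) * s T (j - (i + 1)) := by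
        funext T
        have h := (hs T).2 j
        rw [sum_range_succ', h0, one_mul, Nat.sub_zero] at h
        linarith
      rw [e]
      apply degF_add
      · exact degF_smul _ (degF_yc p j)
      · apply degF_smul
        apply degF_sum
        intro i hi
        have h1 := degF_mul (degF_yc p (i + 1)) (ih (j - (i + 1)) (by omega))
        rwa [Nat.add_sub_of_le (by omega : i + 1 ≤ j)] at h1
  intro j S hj
  obtain ⟨a, ha, hsa⟩ := key j
  have e : ∀ T ∈ S.powerset, (-1 : ℝ) ^ (S.card - T.card) * s T j =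
      (-1 : ℝ) ^ (S.card - T.card) * ∑ I ∈ T.powerset, a I := by
    intro T _
    rw [← hsa T]
  rw [sum_congr rfl e, mob_inv, ha S hj]

end Pool.Agent.Helper42.BO
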