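import Pool.Agent.Helper92.BO.GoalsA

set_option autoImplicit false

namespace Pool.Agent.Helper42.BO

open Pool.Agent.Helper92.BO
open MeasureTheory Filter Topology Function Set

/-- clamp to the unit interval -/
noncomputable def pj (x : ℝ) : ℝ := max 0 (min x 1)

lemma pj_mem (x : ℝ) : 0 ≤ pj x ∧ pj x ≤ 1 :=
  ⟨le_max_left _ _, max_le (by norm_num) (min_le_right _ _)⟩

lemma pj_eq {x : ℝ} (h0 : 0 ≤ x) (h1 : x ≤ 1) : pj x = x := by
  unfold pj
  rw [min_eq_left h1, max_eq_right h0]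

lemma pj_lip (x y : ℝ) : |pj x - pj y| ≤ |x - y| := by
  unfold pj
  have h1 := abs_max_sub_max_le_max 0 (min x 1) 0 (min y 1)
  have h2 := abs_min_sub_min_le_max x 1 y 1
  simp only [sub_self, abs_zero] at h1 h2
  refine h1.trans (max_le (abs_nonneg _) (h2.trans (max_le le_rfl (abs_nonneg _))))

lemma cut_comm (G : SimpleGraph ℕ) (v w : ℕ) (c c' : ℝ) (b : ℕ → ℝ) :
    cut G w c' (cut G v c b) = cut G v c (cut G w c' b) := by
  funext u
  unfold cut
  split_ifs <;> first | rfl | exact min_right_comm _ _ _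

lemma cut_in01 {G : SimpleGraph ℕ} {v : ℕ} {c : ℝ} {b : ℕ → ℝ} {L : List ℕ} (hb : In01 L b)
    (h0 : 0 ≤ c) (h1 : c ≤ 1) : In01 L (cut G v c b) := by
  intro u hu
  unfold cut
  have := hb u hu
  split_ifs
  · exact ⟨le_min this.1 h0, (min_le_left _ _).trans this.2⟩
  · exact this

lemma cut_lip (G : SimpleGraph ℕ) (v : ℕ) (c c' : ℝ) (b b' : ℕ → ℝ) (u : ℕ) {d : ℝ}
    (hb : |b u - b' u| ≤ d) (hc : |c - c'| ≤ d) : |cut G v c b u - cut G v c' b' u| ≤ d := by
  unfold cut
  split_ifs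
  · exact (abs_min_sub_min_le_max _ _ _ _).trans (max_le hb hc)
  · exact hb

lemma sum_le_len (f : ℕ → ℝ) (d : ℝ) : ∀ L : List ℕ, (∀ u ∈ L, f u ≤ d) →
    (L.map f).sum ≤ L.length * d := by
  intro L
  induction L with
  | nil => intro _; simp
  | cons a L ih =>
    intro h
    have h1 := ih (fun u hu => h u (List.mem_cons_of_mem _ hu))
    have h2 := h a List.mem_cons_self
    simp only [List.map_cons, List.sum_cons, List.length_cons, Nat.cast_add, Nat.cast_one]
    linarith

/-- the clamped integrand -/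
noncomputable def HH (G : SimpleGraph ℕ) (z : ℂ) (L : List ℕ) (b : ℕ → ℝ) (v w : ℕ) (x y : ℝ) : ℂ :=
  ZC G z L (cut G w (1 - pj y) (cut G v (1 - pj x) b))

lemma HH_comm (G : SimpleGraph ℕ) (z : ℂ) (L : List ℕ) (b : ℕ → ℝ) (v w : ℕ) (x y : ℝ) :
    HH G z L b v w x y = HH G z L b w v y x := by
  unfold HH
  rw [cut_comm]

lemma HH_in01 (G : SimpleGraph ℕ) {L : List ℕ} {b : ℕ → ℝ} (hb : In01 L b) (v w : ℕ) (x y : ℝ) :
    In01 L (cut G w (1 - pj y) (cut G v (1 - pj x) b)) := by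
  have h1 := pj_mem x
  have h2 := pj_mem y
  exact cut_in01 (cut_in01 hb (by linarith) (by linarith)) (by linarith) (by linarith)

lemma HH_cont (hLip : LipStmt) (G : SimpleGraph ℕ) (z : ℂ) (L : List ℕ) (b : ℕ → ℝ)
    (hb : In01 L b) (v w : ℕ) : Continuous (fun q : ℝ × ℝ => HH G z L b v w q.1 q.2) := by
  set M : ℝ := max 1 ‖z‖ with hM
  have hM1 : 1 ≤ M := le_max_left _ _
  have hK : 0 ≤ M ^ L.length * L.length := by positivity
  apply LipschitzWith.continuous (K := ⟨M ^ L.length * L.length, hK⟩)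
  apply LipschitzWith.of_dist_le_mul
  intro q q'
  have h1 := (hLip G z M hM1 (le_max_right _ _) L _ _ (HH_in01 G hb v w q.1 q.2)
    (HH_in01 G hb v w q'.1 q'.2)).2
  rw [dist_eq_norm]
  refine h1.trans ?_
  show M ^ L.length * _ ≤ (M ^ L.length * L.length) * dist q q'
  rw [mul_assoc]
  apply mul_le_mul_of_nonneg_left _ (by positivity)
  apply sum_le_len
  intro u _
  have d1 : |q.1 - q'.1| ≤ dist q q' := by
    rw [← Real.dist_eq, Prod.dist_eq]; exact le_max_left _ _
  have d2 : |q.2 - q'.2| ≤ dist q q' := by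
    rw [← Real.dist_eq, Prod.dist_eq]; exact le_max_right _ _
  apply cut_lip
  · apply cut_lip
    · simp
    · have := pj_lip q'.1 q.1
      rw [show 1 - pj q.1 - (1 - pj q'.1) = pj q'.1 - pj q.1 by ring]
      rw [abs_sub_comm q'.1 q.1] at this
      exact this.trans d1
  · have := pj_lip q'.2 q.2
    rw [show 1 - pj q.2 - (1 - pj q'.2) = pj q'.2 - pj q.2 by ring]
    rw [abs_sub_comm q'.2 q.2] at this
    exact this.trans d2

lemma HH_bound (hLip : LipStmt) (G : SimpleGraph ℕ) (z : ℂ) (L : List ℕ) (b : ℕ → ℝ)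
    (hb : In01 L b) (v w : ℕ) (x y : ℝ) : ‖HH G z L b v w x y‖ ≤ (max 1 ‖z‖) ^ L.length :=
  (hLip G z _ (le_max_left _ _) (le_max_right _ _) L _ _ (HH_in01 G hb v w x y)
    (HH_in01 G hb v w x y)).1

lemma psi_meas (z : ℂ) : Measurable (psi z) :=
  Measurable.ite measurableSet_Iic measurable_const measurable_const

lemma psi_bound (z : ℂ) (x : ℝ) : ‖psi z x‖ ≤ max 1 ‖z‖ := by
  unfold psi
  split_ifs
  · simp
  · exact le_max_right _ _

open Classical in
/-- the full integrand -/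
noncomputable def FF (G : SimpleGraph ℕ) (z : ℂ) (L : List ℕ) (b : ℕ → ℝ) (v w : ℕ) (x y : ℝ) : ℂ :=
  if G.Adj v w ∧ 1 < x + y then 0 else psi z x * (psi z y * HH G z L b v w x y)

lemma FF_comm (G : SimpleGraph ℕ) (z : ℂ) (L : List ℕ) (b : ℕ → ℝ) (v w : ℕ) (x y : ℝ) :
    FF G z L b v w x y = FF G z L b w v y x := by
  unfold FF
  rw [HH_comm, G.adj_comm v w, add_comm x y]
  congr 1
  ring

lemma FF_meas (hLip : LipStmt) (G : SimpleGraph ℕ) (z : ℂ) (L : List ℕ) (b : ℕ → ℝ)
    (hb : In01 L b) (v w : ℕ) : Measurable (fun q : ℝ × ℝ => FF G z L b v w q.1 q.2) := by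
  unfold FF
  apply Measurable.ite
  · by_cases h : G.Adj v w
    · simp only [h, true_and]
      exact measurableSet_lt measurable_const (measurable_fst.add measurable_snd)
    · simp only [h, false_and, setOf_false]
      exact MeasurableSet.empty
  · exact measurable_const
  · exact ((psi_meas z).comp measurable_fst).mul (((psi_meas z).comp measurable_snd).mul
      (HH_cont hLip G z L b hb v w).measurable)

lemma FF_bound (hLip : LipStmt) (G : SimpleGraph ℕ) (z : ℂ) (L : List ℕ) (b : ℕ → ℝ)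
    (hb : In01 L b) (v w : ℕ) (x y : ℝ) :
    ‖FF G z L b v w x y‖ ≤ max 1 ‖z‖ * (max 1 ‖z‖ * (max 1 ‖z‖) ^ L.length) := by
  have h0 : (0 : ℝ) ≤ max 1 ‖z‖ := le_trans zero_le_one (le_max_left _ _)
  unfold FF
  split_ifs
  · rw [norm_zero]; positivity
  · rw [norm_mul, norm_mul]
    have h1 := psi_bound z x
    have h2 := psi_bound z y
    have h3 := HH_bound hLip G z L b hb v w x y
    gcongr

/-- one order of integration -/
lemma ZC_two (G : SimpleGraph ℕ) (z : ℂ) (L : List ℕ) (b : ℕ → ℝ) (v w : ℕ)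
    (hv : 0 ≤ b v ∧ b v ≤ 1) (hw : 0 ≤ b w ∧ b w ≤ 1) :
    ZC G z (v :: w :: L) b = ∫ x in Ioc 0 (b v), ∫ y in Ioc 0 (b w), FF G z L b v w x y := by
  show (∫ x in (0 : ℝ)..(b v), psi z x * ∫ y in (0 : ℝ)..(cut G v (1 - x) b w),
    psi z y * ZC G z L (cut G w (1 - y) (cut G v (1 - x) b))) = _
  rw [intervalIntegral.integral_of_le hv.1]
  apply setIntegral_congr_fun measurableSet_Ioc
  intro x hx
  simp only
  have hx0 : 0 ≤ x := hx.1.le
  have hx1 : x ≤ 1 := hx.2.trans hv.2
  have hm : 0 ≤ cut G v (1 - x) b w := by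
    unfold cut
    split_ifs
    · exact le_min hw.1 (by linarith)
    · exact hw.1
  rw [intervalIntegral.integral_of_le hm, ← integral_const_mul]
  have hset : ∃ S : Set ℝ, MeasurableSet S ∧ Ioc 0 (b w) ∩ S = Ioc 0 (cut G v (1 - x) b w) ∧
      ∀ y, y ∈ S ↔ ¬ (G.Adj v w ∧ 1 < x + y) := by
    by_cases h : G.Adj v w
    · refine ⟨Iic (1 - x), measurableSet_Iic, ?_, ?_⟩
      · unfold cut
        rw [if_pos h, Ioc_inter_Iic]
      · intro y
        simp only [mem_Iic, h, true_and, not_lt]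
        constructor <;> intro <;> linarith
    · refine ⟨univ, MeasurableSet.univ, ?_, ?_⟩
      · unfold cut
        rw [if_neg h, inter_univ]
      · intro y
        simp [h]
  obtain ⟨S, hS, hS1, hS2⟩ := hset
  rw [← hS1, ← setIntegral_indicator hS]
  apply setIntegral_congr_fun measurableSet_Ioc
  intro y hy
  have hy0 : 0 ≤ y := hy.1.le
  have hy1 : y ≤ 1 := hy.2.trans hw.2
  unfold FF HH
  rw [pj_eq hx0 hx1, pj_eq hy0 hy1]
  by_cases h : y ∈ S
  · rw [indicator_of_mem h, if_neg ((hS2 y).1 h)]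
  · rw [indicator_of_notMem h, if_pos (by
      have := mt (hS2 y).2 h
      exact not_not.1 this)]

theorem prmC (hLip : LipStmt) (G : SimpleGraph ℕ) (z : ℂ) {L L' : List ℕ} (h : L.Perm L') :
    ∀ b : ℕ → ℝ, In01 L b → ZC G z L b = ZC G z L' b := by
  induction h with
  | nil => intro b _; rfl
  | cons v _ ih =>
    rename_i L L' _
    intro b hb
    show (∫ x in (0 : ℝ)..(b v), psi z x * ZC G z L (cut G v (1 - x) b)) =
      ∫ x in (0 : ℝ)..(b v), psi z x * ZC G z L' (cut G v (1 - x) b)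
    have hv := hb v List.mem_cons_self
    apply intervalIntegral.integral_congr
    intro x hx
    rw [uIcc_of_le hv.1] at hx
    simp only
    rw [ih _ (cut_in01 (fun u hu => hb u (List.mem_cons_of_mem _ hu)) (by linarith [hx.2, hv.2])
      (by linarith [hx.1]))]
  | swap v w L =>
    intro b hb
    have hw := hb w (by simp)
    have hv := hb v (by simp)
    have hbL : In01 L b := fun u hu => hb u (by simp [hu])
    rw [ZC_two G z L b w v hw hv, ZC_two G z L b v w hv hw]
    have e : ∀ x y, FF G z L b v w x y = FF G z L b w v y x := FF_comm G z L b v w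
    simp only [e]
    rw [integral_integral_swap]
    refine Integrable.of_bound (C := max 1 ‖z‖ * (max 1 ‖z‖ * (max 1 ‖z‖) ^ L.length)) ?_ ?_
    · exact (FF_meas hLip G z L b hbL w v).aestronglyMeasurable
    · exact Eventually.of_forall fun q => FF_bound hLip G z L b hbL w v q.1 q.2
  | trans h1 _ ih1 ih2 =>
    intro b hb
    rw [ih1 b hb]
    exact ih2 b (fun u hu => hb u (h1.mem_iff.2 hu))

theorem prm (hLip : LipStmt) (hCas : CasStmt) : PrmStmt := by
  intro G z l L L' b h hb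
  refine ⟨prmC hLip G z h b hb, ?_⟩
  have h1 := prmC hLip G (l : ℂ) h b hb
  rw [hCas, hCas] at h1
  exact_mod_cast h1

end Pool.Agent.Helper42.BO
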